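import Pool.Agent.helper1.CD.Spec

/-!
# Project CD (MP_2e0e07_nt), row LOW: the lower density
-/

set_option autoImplicit false

open NumberField IsDedekindDomain Complex Pool.Agent.CH Pool.Agent.GK

namespace Pool.Agent.CD

/-- restriction of Frobenius elements -/
theorem LOW_Fp {K L M : Type} [Field K] [NumberField K] [Field L] [NumberField L] [Field M] [NumberField M]
    [Algebra K L] [Algebra K M] [Algebra L M] [IsScalarTower K L M] (g : M ≃ₐ[K] M) (σ : L ≃ₐ[K] L)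
    (h : ∀ x : L, g (algebraMap L M x) = algebraMap L M (σ x)) : Fp K M g ⊆ Fp K L σ := by
  rintro v ⟨hp, P, hP, hPu, hfr⟩
  refine ⟨hp, P.under (𝓞 L), Ideal.IsPrime.under (𝓞 L) P, ?_, ?_⟩
  · rw [Ideal.under_under, hPu]
  · intro x
    rw [Ideal.under_def, Ideal.mem_comap]
    have h1 : algebraMap (𝓞 L) (𝓞 M) (σ • x - x ^ nv K v) =
        g • algebraMap (𝓞 L) (𝓞 M) x - (algebraMap (𝓞 L) (𝓞 M) x) ^ nv K v := by
      rw [map_sub, map_pow]
      congr 1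
      apply RingOfIntegers.ext
      exact (h x).symm
    rw [h1]
    exact hfr _

theorem LOW (hLOB : LOB_stmt) (hMCQ : MCQ_stmt) (hGCQ : GCQ_stmt) (hDSL : DSL_stmt)
    (hMEX : MEX_stmt) : LOW_stmt := by
  classical
  intro K L _ _ _ _ _ _ X ε hε
  obtain ⟨m, hm⟩ := hMCQ (Module.finrank ℚ L) (ε / 2) (half_pos hε)
  obtain ⟨M, iM1, iM2, iM3, iM4, iM5, z, hgal, hz, hadj⟩ := hMEX K L m hm.1
  have hfK : FiniteDimensional K M := Module.Finite.of_restrictScalars_finite ℚ K M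
  have hfKL : FiniteDimensional K L := Module.Finite.of_restrictScalars_finite ℚ K L
  have hfL : FiniteDimensional L M := Module.Finite.of_restrictScalars_finite ℚ L M
  have hfinM : Finite (M ≃ₐ[K] M) := inferInstance
  have hfinL : Finite (L ≃ₐ[K] L) := inferInstance
  obtain ⟨S, hS⟩ : ∃ S : (L ≃ₐ[K] L) → Set (M ≃ₐ[K] M), S = fun σ =>
      {g | (∀ x : L, g (algebraMap L M x) = algebraMap L M (σ x)) ∧ ∀ k : ℕ, (g ^ k) z = z → g ^ k = 1} :=
    ⟨_, rfl⟩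
  obtain ⟨X', hX'⟩ : ∃ X' : Set (M ≃ₐ[K] M), X' = {g | ∃ σ ∈ X, g ∈ S σ} := ⟨_, rfl⟩
  obtain ⟨C, δ₁, hδ₁, hL⟩ := hLOB K M m z X' hm.1 hz (by
    intro g hg k hk
    rw [hX'] at hg
    obtain ⟨σ, -, hσ⟩ := hg
    rw [hS] at hσ
    exact hσ.2 k hk)
  -- the count
  have hcount : (1 - ε / 2) * (Module.finrank L M : ℝ) * (Nat.card X : ℝ) ≤ (Nat.card X' : ℝ) := by
    have h1 : ∀ σ : L ≃ₐ[K] L, (1 - ε / 2) * (Module.finrank L M : ℝ) ≤ (Nat.card (S σ) : ℝ) := by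
      intro σ
      have h2 := hGCQ (Module.finrank ℚ L) m (ε / 2) hm K L M z σ le_rfl hz hadj
      rw [hS]
      exact h2
    have hfX : Fintype X := Fintype.ofFinite X
    have h3 : Nat.card (Σ σ : X, S σ.1) ≤ Nat.card X' := by
      refine Nat.card_le_card_of_injective
        (fun p => (⟨p.2.1, by rw [hX']; exact ⟨p.1.1, p.1.2, p.2.2⟩⟩ : X')) ?_
      rintro ⟨⟨σ, hσ⟩, ⟨g, hg⟩⟩ ⟨⟨σ', hσ'⟩, ⟨g', hg'⟩⟩ he
      have e1 : g = g' := congrArg (fun x : X' => (x : M ≃ₐ[K] M)) he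
      subst e1
      have e2 : σ = σ' := by
        ext x
        apply (algebraMap L M).injective
        have h4 := hg
        have h5 := hg'
        rw [hS] at h4 h5
        rw [← h4.1 x, ← h5.1 x]
      subst e2
      rfl
    rw [Nat.card_sigma] at h3
    have h6 : ((∑ σ : X, Nat.card (S σ.1) : ℕ) : ℝ) ≤ (Nat.card X' : ℝ) := by exact_mod_cast h3
    refine le_trans ?_ h6
    rw [Nat.cast_sum]
    calc (1 - ε / 2) * (Module.finrank L M : ℝ) * (Nat.card X : ℝ)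
        = ∑ _σ : X, (1 - ε / 2) * (Module.finrank L M : ℝ) := by
          rw [Finset.sum_const, Finset.card_univ, nsmul_eq_mul, Nat.card_eq_fintype_card]
          ring
      _ ≤ _ := Finset.sum_le_sum fun σ _ => h1 σ.1
  have hcard : (Nat.card (M ≃ₐ[K] M) : ℝ) = (Module.finrank K L : ℝ) * (Module.finrank L M : ℝ) := by
    rw [IsGalois.card_aut_eq_finrank K M, ← Module.finrank_mul_finrank K L M, Nat.cast_mul]
  have hXn : (Nat.card X : ℝ) ≤ (Module.finrank K L : ℝ) := by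
    rw [← IsGalois.card_aut_eq_finrank K L]
    exact_mod_cast Finite.card_subtype_le (fun σ => σ ∈ X)
  obtain ⟨n, hn⟩ : ∃ n : ℝ, n = (Module.finrank K L : ℝ) := ⟨_, rfl⟩
  obtain ⟨t, ht⟩ : ∃ t : ℝ, t = (Module.finrank L M : ℝ) := ⟨_, rfl⟩
  obtain ⟨c, hc⟩ : ∃ c : ℝ, c = (Nat.card X : ℝ) := ⟨_, rfl⟩
  have hn1 : 1 ≤ n := by
    rw [hn]
    exact_mod_cast Nat.succ_le_of_lt Module.finrank_pos
  have ht1 : 1 ≤ t := by
    rw [ht]
    exact_mod_cast Nat.succ_le_of_lt Module.finrank_pos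
  have hc0 : 0 ≤ c := by rw [hc]; positivity
  rw [← hn, ← hc] at hXn ⊢
  rw [← ht, ← hc] at hcount
  rw [← hn, ← ht] at hcard
  rw [hcard] at hL
  refine ⟨min δ₁ (Real.exp (-(2 * |C| / ε))), lt_min hδ₁ (Real.exp_pos _), ?_⟩
  intro s hs1 hs2
  have hs3 : s < 1 + δ₁ := by
    have := min_le_left δ₁ (Real.exp (-(2 * |C| / ε)))
    linarith
  have hs4 : s - 1 < Real.exp (-(2 * |C| / ε)) := by
    have := min_le_right δ₁ (Real.exp (-(2 * |C| / ε)))
    linarith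
  obtain ⟨l, hl⟩ : ∃ l, l = -Real.log (s - 1) := ⟨_, rfl⟩
  have hl1 : 2 * |C| / ε ≤ l := by
    have h1 := Real.log_lt_log (by linarith : 0 < s - 1) hs4
    rw [Real.log_exp] at h1
    rw [hl]
    linarith
  have hl0 : 0 ≤ l := le_trans (by positivity) hl1
  have hCl : |C| ≤ ε / 2 * l := by
    rw [div_le_iff₀ hε] at hl1
    linarith
  have h1 := hL s hs1 hs3
  have h2 : DS K (⋃ g ∈ X', Fp K M g) s ≤ DS K (⋃ σ ∈ X, Fp K L σ) s := by
    refine (hDSL K s hs1).2.1 _ _ ?_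
    intro v hv
    simp only [Set.mem_iUnion] at hv ⊢
    obtain ⟨g, hg, hv⟩ := hv
    rw [hX'] at hg
    obtain ⟨σ, hσ, hg⟩ := hg
    rw [hS] at hg
    exact ⟨σ, hσ, LOW_Fp g σ hg.1 hv⟩
  rw [← hl] at h1 ⊢
  obtain ⟨D, hD⟩ : ∃ D, D = DS K (⋃ σ ∈ X, Fp K L σ) s := ⟨_, rfl⟩
  rw [← hD] at h2 ⊢
  have hnt : 0 < n * t := by positivity
  have h3 : (1 - ε / 2) * t * c * l ≤ n * t * D + |C| := by
    have e1 := mul_le_mul_of_nonneg_right hcount hl0
    have e2 := mul_le_mul_of_nonneg_left h2 hnt.le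
    have e3 := le_abs_self C
    linarith
  have h4 : (c / n - ε) * l * (n * t) ≤ D * (n * t) := by
    have e1 : (c / n - ε) * l * (n * t) = c * l * t - ε * l * (n * t) := by
      field_simp
    rw [e1]
    have e2 : c * (l * t) ≤ n * (l * t) := mul_le_mul_of_nonneg_right hXn (by positivity)
    have e3 : ε / 2 * l * 1 ≤ ε / 2 * l * (n * t) := by
      refine mul_le_mul_of_nonneg_left ?_ (by positivity)
      nlinarith
    have e4 : ε / 2 * (c * (l * t)) ≤ ε / 2 * (n * (l * t)) := mul_le_mul_of_nonneg_left e2 (by positivity)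
    nlinarith
  exact le_of_mul_le_mul_right h4 hnt

end Pool.Agent.CD
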